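import Mathlib

open Filter Topology Finset
open scoped ENNReal

namespace Pool.Agent.Q178.GV

/-- The closed intervals `I_i = [s i, t i]`, `i < n`, are non-overlapping subintervals of
`[a, b]`. -/
def IsFam (a b : ℝ) (n : ℕ) (s t : ℕ → ℝ) : Prop :=
  (∀ i < n, a ≤ s i ∧ s i < t i ∧ t i ≤ b) ∧
  ∀ i < n, ∀ j < n, i ≠ j → t i ≤ s j ∨ t j ≤ s i

/-- `∑_{i < n} |f(I_i)| / lam i`. -/
noncomputable def vsum (lam : ℕ → ℝ) (f : ℝ → ℝ) (n : ℕ) (s t : ℕ → ℝ) : ℝ :=
  ∑ i ∈ range n, |f (t i) - f (s i)| / lam i

/-- All the sums are at most `M`. -/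
def Bd (a b : ℝ) (lam : ℕ → ℝ) (f : ℝ → ℝ) (M : ℝ) : Prop :=
  ∀ n s t, IsFam a b n s t → vsum lam f n s t ≤ M

theorem sum_le_range (w : ℕ → ℝ) (hw : Antitone w) : ∀ (n : ℕ) (T : Finset ℕ), T.card = n →
    ∑ i ∈ T, w i ≤ ∑ k ∈ range n, w k := by
  intro n
  induction n with
  | zero =>
    intro T hT
    rw [card_eq_zero] at hT
    simp [hT]
  | succ n ih =>
    intro T hT
    have hne : T.Nonempty := by
      rw [← card_pos]; omega
    have hm := T.max'_mem hne
    set m := T.max' hne
    have h1 : (T.erase m).card = n := by rw [card_erase_of_mem hm]; omega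
    have h2 := ih (T.erase m) h1
    have h3 : n ≤ m := by
      have : T ⊆ range (m + 1) := by
        intro x hx
        rw [mem_range]
        have := T.le_max' x hx
        omega
      have := card_le_card this
      rw [card_range] at this
      omega
    rw [← add_sum_erase T w hm, sum_range_succ]
    have := hw h3
    linarith

/-- sorted enumeration -/
theorem sorted_enum {ι : Type} [DecidableEq ι] (w : ℕ → ℝ) (hw : Antitone w) (x₀ : ι) : ∀ (n : ℕ)
    (T : Finset ι) (idx : ι → ℕ) (a : ι → ℝ), T.card = n → (∀ i ∈ T, 0 ≤ a i) →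
    (∀ i ∈ T, ∀ j ∈ T, idx i = idx j → i = j) →
    ∃ g : ℕ → ι, (∀ k < n, g k ∈ T) ∧ (∀ k < n, ∀ l < n, g k = g l → k = l) ∧
      (∀ k l, k ≤ l → l < n → a (g l) ≤ a (g k)) ∧
      ∑ i ∈ T, a i * w (idx i) ≤ ∑ k ∈ range n, a (g k) * w k := by
  intro n
  induction n with
  | zero =>
    intro T idx a hT _ _
    rw [card_eq_zero] at hT
    exact ⟨fun _ => x₀, by omega, by omega, by omega, by simp [hT]⟩
  | succ n ih =>
    intro T idx a hT ha hinj
    have hne : T.Nonempty := by
      rw [← card_pos]; omega
    obtain ⟨m, hm, hmin⟩ := T.exists_min_image a hne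
    have h1 : (T.erase m).card = n := by rw [card_erase_of_mem hm]; omega
    obtain ⟨g, hg1, hg2, hg3, hg4⟩ := ih (T.erase m) idx (fun i => a i - a m) h1
      (fun i hi => sub_nonneg.2 (hmin i (mem_of_mem_erase hi)))
      (fun i hi j hj => hinj i (mem_of_mem_erase hi) j (mem_of_mem_erase hj))
    have hv : ∑ i ∈ T, w (idx i) ≤ ∑ k ∈ range (n + 1), w k := by
      have h2 : ∑ i ∈ T, w (idx i) = ∑ k ∈ T.image idx, w k := by
        rw [sum_image]
        intro i hi j hj h
        exact hinj i hi j hj h
      rw [h2]
      apply sum_le_range w hw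
      rw [card_image_of_injOn, hT]
      intro i hi j hj h
      exact hinj i hi j hj h
    refine ⟨fun k => if k = n then m else g k, ?_, ?_, ?_, ?_⟩
    · intro k hk
      by_cases h : k = n
      · simp [h, hm]
      · simp only [h, if_false]
        exact mem_of_mem_erase (hg1 k (by omega))
    · intro k hk l hl h
      by_cases h1 : k = n <;> by_cases h2 : l = n
      · omega
      · simp only [h1, if_true, h2, if_false] at h
        have := hg1 l (by omega)
        rw [← h] at this
        simp at this
      · simp only [h1, if_false, h2, if_true] at h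
        have := hg1 k (by omega)
        rw [h] at this
        simp at this
      · simp only [h1, if_false, h2] at h
        exact hg2 k (by omega) l (by omega) h
    · intro k l hkl hl
      by_cases h1 : k = n <;> by_cases h2 : l = n
      · simp [h1, h2]
      · omega
      · simp only [h1, if_false, h2, if_true]
        exact hmin _ (mem_of_mem_erase (hg1 k (by omega)))
      · simp only [h1, if_false, h2]
        have := hg3 k l hkl (by omega)
        linarith
    · have e1 : ∑ i ∈ T, a i * w (idx i) = a m * ∑ i ∈ T, w (idx i) +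
          ∑ i ∈ T.erase m, (a i - a m) * w (idx i) := by
        have : ∑ i ∈ T.erase m, (a i - a m) * w (idx i) =
            ∑ i ∈ T, (a i - a m) * w (idx i) := by
          rw [← add_sum_erase T (fun i => (a i - a m) * w (idx i)) hm]
          simp
        rw [this, mul_sum, ← sum_add_distrib]
        refine sum_congr rfl fun i _ => ?_
        ring
      have e2 : ∑ k ∈ range (n + 1), a (if k = n then m else g k) * w k =
          a m * ∑ k ∈ range (n + 1), w k + ∑ k ∈ range n, (a (g k) - a m) * w k := by
        rw [sum_range_succ, sum_range_succ, mul_add, mul_sum]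
        have : ∑ k ∈ range n, a (if k = n then m else g k) * w k =
            ∑ k ∈ range n, a m * w k + ∑ k ∈ range n, (a (g k) - a m) * w k := by
          rw [← sum_add_distrib]
          refine sum_congr rfl fun k hk => ?_
          rw [mem_range] at hk
          rw [if_neg (by omega)]
          ring
        rw [this]
        simp only [if_true]
        ring
      rw [e1, e2]
      have h5 : a m * ∑ i ∈ T, w (idx i) ≤ a m * ∑ k ∈ range (n + 1), w k :=
        mul_le_mul_of_nonneg_left hv (ha m hm)
      linarith

/-- Abel summation -/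
theorem abel {a : ℕ → ℝ} (ha : Antitone a) (ha0 : ∀ i, 0 ≤ a i) {d : ℕ → ℝ} {δ : ℝ}
    (_hδ : 0 ≤ δ) (h : ∀ k, -δ ≤ ∑ i ∈ range k, d i) (n : ℕ) :
    -δ * a 0 ≤ ∑ i ∈ range n, a i * d i := by
  have key : ∀ n, a n * (∑ i ∈ range n, d i) - δ * (a 0 - a n) ≤ ∑ i ∈ range n, a i * d i := by
    intro n
    induction n with
    | zero => simp
    | succ n ih =>
      rw [sum_range_succ (fun i => a i * d i)]
      have h1 := h (n + 1)
      have h2 := ha (Nat.le_succ n)
      have h3 : 0 ≤ (a n - a (n + 1)) * ((∑ i ∈ range (n + 1), d i) + δ) :=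
        mul_nonneg (by simpa using h2) (by linarith)
      have h4 : ∑ i ∈ range (n + 1), d i = (∑ i ∈ range n, d i) + d n := sum_range_succ _ _
      rw [h4] at h3 ⊢
      nlinarith
  have h1 := key n
  have h2 : -δ * a n ≤ a n * (∑ i ∈ range n, d i) := by
    have := mul_le_mul_of_nonneg_left (h n) (ha0 n)
    linarith
  nlinarith

/-- greedy colouring -/
theorem greedy {κ : Type} [Fintype κ] [DecidableEq κ] (k₀ : κ) (q : ℕ) (S : ℕ → Finset κ) :
    ∀ n : ℕ, (∀ i < n, q ≤ (S i).card) → (∀ i < n, (S i).Nonempty) →
    ∃ col : ℕ → κ, ∀ i < n, col i ∈ S i ∧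
      q * ((range i).filter fun j => col j = col i).card ≤ i := by
  intro n
  induction n with
  | zero => intro _ _; exact ⟨fun _ => k₀, by omega⟩
  | succ n ih =>
    intro h1 h2
    obtain ⟨col, hcol⟩ := ih (fun i hi => h1 i (by omega)) (fun i hi => h2 i (by omega))
    obtain ⟨r, hr, hmin⟩ := (S n).exists_min_image
      (fun r => ((range n).filter fun j => col j = r).card) (h2 n (by omega))
    refine ⟨Function.update col n r, fun i hi => ?_⟩
    have hc : ∀ j < n, Function.update col n r j = col j := fun j hj =>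
      Function.update_of_ne (by omega) _ _
    rcases Nat.lt_succ_iff_lt_or_eq.1 hi with h | h
    · obtain ⟨h3, h4⟩ := hcol i h
      rw [hc i h]
      refine ⟨h3, ?_⟩
      have : ((range i).filter fun j => Function.update col n r j = col i) =
          (range i).filter fun j => col j = col i := by
        apply filter_congr
        intro j hj
        rw [mem_range] at hj
        rw [hc j (by omega)]
      rw [this]
      exact h4
    · subst h
      rw [Function.update_self]
      refine ⟨hr, ?_⟩
      have : ((range i).filter fun j => Function.update col i r j = r) =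
          (range i).filter fun j => col j = r := by
        apply filter_congr
        intro j hj
        rw [mem_range] at hj
        rw [hc j (by omega)]
      rw [this]
      calc q * ((range i).filter fun j => col j = r).card
          ≤ (S i).card * ((range i).filter fun j => col j = r).card :=
            Nat.mul_le_mul_right _ (h1 i (by omega))
        _ = ∑ _r' ∈ S i, ((range i).filter fun j => col j = r).card := by
            rw [sum_const, smul_eq_mul]
        _ ≤ ∑ r' ∈ S i, ((range i).filter fun j => col j = r').card :=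
            sum_le_sum fun r' hr' => hmin r' hr'
        _ ≤ ∑ r' : κ, ((range i).filter fun j => col j = r').card :=
            sum_le_sum_of_subset (subset_univ _)
        _ = (range i).card := by
            rw [← card_eq_sum_card_fiberwise]
            intro x _
            simp
        _ = i := card_range i

/-- the sums over arbitrary injective numberings are bounded, too -/
theorem Bd.inj {a b : ℝ} {lam : ℕ → ℝ} (hpos : ∀ i, 0 < lam i) (hmono : Monotone lam) {f : ℝ → ℝ}
    {M : ℝ} (h : Bd a b lam f M) {ι : Type} [DecidableEq ι] (x₀ : ι) (T : Finset ι) (idx : ι → ℕ)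
    (s t : ι → ℝ) (h1 : ∀ i ∈ T, a ≤ s i ∧ s i < t i ∧ t i ≤ b)
    (h2 : ∀ i ∈ T, ∀ j ∈ T, i ≠ j → (t i ≤ s j ∨ t j ≤ s i) ∧ idx i ≠ idx j) :
    ∑ i ∈ T, |f (t i) - f (s i)| / lam (idx i) ≤ M := by
  have hw : Antitone fun i => 1 / lam i := fun i j hij =>
    one_div_le_one_div_of_le (hpos i) (hmono hij)
  obtain ⟨g, hg1, hg2, -, hg4⟩ := sorted_enum (fun i => 1 / lam i) hw x₀ T.card T idx
    (fun i => |f (t i) - f (s i)|) rfl (fun i _ => abs_nonneg _)
    (fun i hi j hj hij => by
      by_contra hne
      exact (h2 i hi j hj hne).2 hij)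
  have h3 := h T.card (s ∘ g) (t ∘ g) ⟨fun i hi => h1 _ (hg1 i hi), fun i hi j hj hij =>
    (h2 _ (hg1 i hi) _ (hg1 j hj) fun e => hij (hg2 i hi j hj e)).1⟩
  unfold vsum at h3
  calc ∑ i ∈ T, |f (t i) - f (s i)| / lam (idx i)
      = ∑ i ∈ T, |f (t i) - f (s i)| * (1 / lam (idx i)) :=
        sum_congr rfl fun i _ => by rw [mul_one_div]
    _ ≤ ∑ k ∈ range T.card, |f (t (g k)) - f (s (g k))| * (1 / lam k) := hg4
    _ = ∑ k ∈ range T.card, |f ((t ∘ g) k) - f ((s ∘ g) k)| / lam k :=
        sum_congr rfl fun i _ => by rw [mul_one_div]; rfl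
    _ ≤ M := h3

end Pool.Agent.Q178.GV
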