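import Pool.Agent.Q178.GV.A

open Filter Topology Finset
open scoped ENNReal

namespace Pool.Agent.Q178.GV

variable {a b : ℝ} {gam lam : ℕ → ℝ} {f : ℝ → ℝ}

/-- partial sums of `∑ 1 / lam i` -/
noncomputable def L (lam : ℕ → ℝ) (n : ℕ) : ℝ := ∑ i ∈ range n, 1 / lam i

theorem L_mono (hl : ∀ i, 0 < lam i) : Monotone (L lam) := by
  apply monotone_nat_of_le_succ
  intro n
  unfold L
  rw [sum_range_succ]
  have := one_div_pos.2 (hl n)
  linarith

theorem L_nonneg (hl : ∀ i, 0 < lam i) (n : ℕ) : 0 ≤ L lam n :=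
  sum_nonneg fun i _ => (one_div_pos.2 (hl i)).le

/-- blocks of length `q` -/
theorem sum_blocks (q : ℕ) (hq : 1 ≤ q) (v : ℕ → ℝ) (n : ℕ) :
    ∑ i ∈ range (q * n), v (i / q) = q * ∑ j ∈ range n, v j := by
  induction n with
  | zero => simp
  | succ n ih =>
    rw [Nat.mul_succ, sum_range_add, ih, sum_range_succ, mul_add]
    congr 1
    have : ∀ x ∈ range q, v ((q * n + x) / q) = v n := by
      intro x hx
      rw [mem_range] at hx
      congr 1
      rw [Nat.mul_add_div (by omega), Nat.div_eq_of_lt hx, add_zero]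
    rw [sum_congr rfl this, sum_const, card_range, nsmul_eq_mul]

/-- comparison of the partial sums -/
theorem exists_K (hg : ∀ i, 0 < gam i) (hgm : Monotone gam) (hl : ∀ i, 0 < lam i)
    (hG : Tendsto (L gam) atTop atTop) {q N N0 : ℕ} (hq : 1 ≤ q) {ε : ℝ} (hε : 0 < ε)
    (hc : ∀ n ≥ N, L lam (q * n) ≤ ε * q * L gam n) :
    ∃ K, ∀ k ≥ K, L lam k ≤ 4 * ε * ∑ i ∈ range k, 1 / gam (N0 + i / q) := by
  obtain ⟨n1, hn1⟩ := (hG.eventually (eventually_ge_atTop (1 / gam 0 + 4 * L gam N0))).exists_forall_of_atTop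
  refine ⟨q * (n1 + N), fun k hk => ?_⟩
  have hqpos : (0 : ℝ) < q := by exact_mod_cast hq
  set n' := k / q with hn'
  have h1 : n1 + N ≤ n' := (Nat.le_div_iff_mul_le (by omega)).2 (by rw [mul_comm]; exact hk)
  have h2 : k ≤ q * (n' + 1) := (Nat.lt_mul_div_succ k (by omega)).le
  have h3 : q * n' ≤ k := Nat.mul_div_le k q
  have h4 : L lam k ≤ ε * q * L gam (n' + 1) := (L_mono hl h2).trans (hc _ (by omega))
  have h5 : L gam (n' + 1) = L gam n' + 1 / gam n' := sum_range_succ _ _
  have h6 : L gam (n' + 1) ≤ 4 * (L gam n' - L gam N0) := by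
    have h7 := hn1 n' (by omega)
    have h8 : 1 / gam n' ≤ 1 / gam 0 := one_div_le_one_div_of_le (hg 0) (hgm (Nat.zero_le _))
    have h9 := L_nonneg hg n'
    have h10 : 0 < 1 / gam 0 := one_div_pos.2 (hg 0)
    have h11 := L_nonneg hg N0
    rw [h5]
    linarith
  have h9 : (q : ℝ) * (L gam n' - L gam N0) ≤ ∑ i ∈ range k, 1 / gam (N0 + i / q) := by
    have h10 : ∑ i ∈ range (q * n'), 1 / gam (N0 + i / q) ≤ ∑ i ∈ range k, 1 / gam (N0 + i / q) :=
      sum_le_sum_of_subset_of_nonneg (range_subset_range.2 h3)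
        fun i _ _ => (one_div_pos.2 (hg _)).le
    rw [sum_blocks q hq (fun j => 1 / gam (N0 + j))] at h10
    refine le_trans ?_ h10
    apply mul_le_mul_of_nonneg_left _ hqpos.le
    have h11 : L gam n' ≤ L gam (N0 + n') := L_mono hg (by omega)
    have h12 : L gam (N0 + n') = L gam N0 + ∑ j ∈ range n', 1 / gam (N0 + j) := by
      unfold L
      rw [sum_range_add]
    linarith
  calc L lam k ≤ ε * q * L gam (n' + 1) := h4
    _ ≤ ε * q * (4 * (L gam n' - L gam N0)) := mul_le_mul_of_nonneg_left h6 (by positivity)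
    _ = 4 * ε * (q * (L gam n' - L gam N0)) := by ring
    _ ≤ _ := mul_le_mul_of_nonneg_left h9 (by positivity)

/-- **One scale.** -/
theorem stage (hg : ∀ i, 0 < gam i) (hgm : Monotone gam) (hl : ∀ i, 0 < lam i)
    (hlm : Monotone lam) (hG : Tendsto (L gam) atTop atTop) (hlu : ∀ B : ℝ, ∃ m, B ≤ lam m)
    {q N N0 : ℕ} (hq : 1 ≤ q) {ε : ℝ} (hε : 0 < ε)
    (hc : ∀ n ≥ N, L lam (q * n) ≤ ε * q * L gam n) {A c : ℝ} (hcpos : 0 < c)
    (hA : ∀ s t : ℝ, a ≤ s → s < t → t ≤ b → |f t - f s| ≤ A)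
    (hfam : ∀ m : ℕ, ∃ n s t, IsFam a b n s t ∧ c < vsum (fun i => lam (m + i)) f n s t)
    (P : Finset ℝ) :
    ∃ n s t, IsFam a b n s t ∧ (∀ i < n, ∀ p ∈ P, ¬ (s i < p ∧ p < t i)) ∧
      c / (8 * ε) ≤ ∑ i ∈ range n, |f (t i) - f (s i)| / gam (N0 + i / q) := by
  classical
  obtain ⟨K, hK⟩ := exists_K hg hgm hl hG (N0 := N0) hq hε hc
  obtain ⟨m, hm⟩ := hlu (2 * (K + P.card) * (A + 1) / c + 1)
  obtain ⟨n, s, t, hF, hsum⟩ := hfam m
  have hlpos := hl m
  -- the good intervals
  set T := (range n).filter fun i => ∀ p ∈ P, ¬ (s i < p ∧ p < t i) with hT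
  set T' := (range n).filter fun i => ¬ ∀ p ∈ P, ¬ (s i < p ∧ p < t i) with hT'
  have hn0 : 0 < n := by
    by_contra h
    have : n = 0 := by omega
    subst this
    simp [vsum] at hsum
    linarith
  have hA0 : 0 ≤ A := by
    obtain ⟨h1, h2, h3⟩ := hF.1 0 hn0
    exact (abs_nonneg _).trans (hA _ _ h1 h2 h3)
  have hbad : T'.card ≤ P.card := by
    have h1 : ∀ i ∈ T', ∃ p ∈ P, s i < p ∧ p < t i := by
      intro i hi
      have := (mem_filter.1 hi).2
      push Not at this
      exact this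
    choose! p hp1 hp2 using h1
    refine card_le_card_of_injOn p (fun i hi => hp1 i hi) ?_
    intro i hi j hj hij
    by_contra hne
    have hi' := (mem_range.1 (mem_filter.1 hi).1)
    have hj' := (mem_range.1 (mem_filter.1 hj).1)
    have h2 := hp2 i hi
    have h3 := hp2 j hj
    have h4 := hF.2 i hi' j hj' hne
    rw [hij] at h2
    rcases h4 with h4 | h4 <;> linarith [h2.1, h2.2, h3.1, h3.2]
  have hsplit : vsum (fun i => lam (m + i)) f n s t =
      ∑ i ∈ T, |f (t i) - f (s i)| / lam (m + i) +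
      ∑ i ∈ T', |f (t i) - f (s i)| / lam (m + i) :=
    (sum_filter_add_sum_filter_not _ _ _).symm
  have hlb : ∀ i, lam m ≤ lam (m + i) := fun i => hlm (by omega)
  have hbad2 : ∑ i ∈ T', |f (t i) - f (s i)| / lam (m + i) ≤ P.card * (A / lam m) := by
    calc ∑ i ∈ T', |f (t i) - f (s i)| / lam (m + i) ≤ ∑ _i ∈ T', A / lam m := by
          apply sum_le_sum
          intro i hi
          obtain ⟨h1, h2, h3⟩ := hF.1 i (mem_range.1 (mem_filter.1 hi).1)
          exact div_le_div₀ hA0 (hA _ _ h1 h2 h3) hlpos (hlb i)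
      _ = T'.card * (A / lam m) := by rw [sum_const, nsmul_eq_mul]
      _ ≤ P.card * (A / lam m) := by
          apply mul_le_mul_of_nonneg_right _ (by positivity)
          exact_mod_cast hbad
  -- sort the good intervals
  obtain ⟨g, hg1, hg2, hg3, hg4⟩ := sorted_enum (fun i => 1 / lam (m + i))
    (fun i j hij => one_div_le_one_div_of_le (hl _) (hlm (by omega))) 0 T.card T id
    (fun i => |f (t i) - f (s i)|) rfl (fun i _ => abs_nonneg _) (fun i _ j _ h => h)
  set n' := T.card with hn'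
  have hTn : ∀ k < n', g k < n := fun k hk => mem_range.1 (mem_filter.1 (hg1 k hk)).1
  have hF' : IsFam a b n' (s ∘ g) (t ∘ g) :=
    ⟨fun i hi => hF.1 _ (hTn i hi), fun i hi j hj hij =>
      hF.2 _ (hTn i hi) _ (hTn j hj) fun e => hij (hg2 i hi j hj e)⟩
  refine ⟨n', s ∘ g, t ∘ g, hF', fun i hi => (mem_filter.1 (hg1 i hi)).2, ?_⟩
  -- Abel summation
  let u : ℕ → ℝ := fun k => if k < n' then |f (t (g k)) - f (s (g k))| else 0
  have hu : Antitone u := by
    intro k l hkl
    by_cases h1 : l < n'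
    · have h2 : k < n' := lt_of_le_of_lt hkl h1
      simp only [u, h1, h2, if_true]
      exact hg3 k l hkl h1
    · simp only [u, h1, if_false]
      split_ifs
      · exact abs_nonneg _
      · exact le_rfl
  have hu0 : ∀ i, 0 ≤ u i := by
    intro i
    simp only [u]
    split_ifs
    · exact abs_nonneg _
    · exact le_rfl
  have huA : u 0 ≤ A := by
    simp only [u]
    split_ifs with h
    · obtain ⟨h1, h2, h3⟩ := hF'.1 0 h
      exact hA _ _ h1 h2 h3
    · exact hA0
  have hδ : 0 ≤ (K : ℝ) / lam m := by positivity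
  have habel := abel hu hu0 (d := fun i => 4 * ε * (1 / gam (N0 + i / q)) - 1 / lam (m + i))
    (δ := (K : ℝ) / lam m) hδ (fun k => by
      rw [sum_sub_distrib, ← mul_sum]
      have h0 : 0 ≤ ∑ i ∈ range k, 1 / gam (N0 + i / q) :=
        sum_nonneg fun i _ => (one_div_pos.2 (hg _)).le
      by_cases hk : K ≤ k
      · have h1 := hK k hk
        have h2 : ∑ i ∈ range k, 1 / lam (m + i) ≤ L lam k :=
          sum_le_sum fun i _ => one_div_le_one_div_of_le (hl _) (hlm (by omega))
        linarith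
      · have h2 : ∑ i ∈ range k, 1 / lam (m + i) ≤ K / lam m := by
          calc ∑ i ∈ range k, 1 / lam (m + i) ≤ ∑ _i ∈ range k, 1 / lam m :=
                sum_le_sum fun i _ => one_div_le_one_div_of_le (hl _) (hlb i)
            _ = k * (1 / lam m) := by rw [sum_const, card_range, nsmul_eq_mul]
            _ ≤ K * (1 / lam m) := by
                apply mul_le_mul_of_nonneg_right _ (by positivity)
                exact_mod_cast (by omega : k ≤ K)
            _ = K / lam m := by ring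
        have h3 : 0 ≤ 4 * ε * ∑ i ∈ range k, 1 / gam (N0 + i / q) := by positivity
        linarith) n'
  have e1 : ∑ i ∈ range n', u i * (4 * ε * (1 / gam (N0 + i / q)) - 1 / lam (m + i)) =
      4 * ε * (∑ i ∈ range n', |f ((t ∘ g) i) - f ((s ∘ g) i)| / gam (N0 + i / q)) -
        ∑ i ∈ range n', |f (t (g i)) - f (s (g i))| * (1 / lam (m + i)) := by
    rw [mul_sum, ← sum_sub_distrib]
    refine sum_congr rfl fun i hi => ?_
    rw [mem_range] at hi
    simp only [u, hi, if_true, Function.comp]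
    ring
  rw [e1] at habel
  have h1 : c - P.card * (A / lam m) < ∑ i ∈ T, |f (t i) - f (s i)| / lam (m + i) := by linarith
  have h2 : ∑ i ∈ T, |f (t i) - f (s i)| / lam (m + i) =
      ∑ i ∈ T, |f (t i) - f (s i)| * (1 / lam (m + id i)) :=
    sum_congr rfl fun i _ => by rw [mul_one_div]; rfl
  rw [h2] at h1
  have h3 := h1.trans_le hg4
  have h4 : (K : ℝ) / lam m * u 0 ≤ K / lam m * A := mul_le_mul_of_nonneg_left huA hδ
  have h5 : (K + P.card) * (A / lam m) ≤ c / 2 := by
    have h6 : 2 * (K + P.card) * (A + 1) / c ≤ lam m := by linarith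
    rw [div_le_iff₀ hcpos] at h6
    rw [mul_div_assoc', div_le_iff₀ hlpos]
    have h7 : (0 : ℝ) ≤ K + P.card := by positivity
    nlinarith
  have h6 : c / 2 ≤
      4 * ε * ∑ i ∈ range n', |f ((t ∘ g) i) - f ((s ∘ g) i)| / gam (N0 + i / q) := by
    have e2 : (K + P.card) * (A / lam m) = P.card * (A / lam m) + K / lam m * A := by ring
    linarith
  rw [div_le_iff₀ (by positivity)]
  linarith

end Pool.Agent.Q178.GV
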