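import Pool.Agent.Q178.GV.B

open Filter Topology Finset
open scoped ENNReal

namespace Pool.Agent.Q178.GV

variable {a b : ℝ} {gam lam : ℕ → ℝ} {f : ℝ → ℝ}

/-- coloured and numbered intervals of `j` scales with total weight at least `W` -/
def State (a b : ℝ) (gam : ℕ → ℝ) (f : ℝ → ℝ) (κ : Type) [Fintype κ] [DecidableEq κ] (j : ℕ)
    (W : ℝ) (X N0 : ℕ) (s t : ℕ → ℝ) (col : ℕ → κ) (idx : ℕ → ℕ) : Prop :=
  (∀ x < X, a ≤ s x ∧ s x < t x ∧ t x ≤ b) ∧
  (∀ x < X, ∀ y < X, x ≠ y → col x = col y → (t x ≤ s y ∨ t y ≤ s x) ∧ idx x ≠ idx y) ∧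
  (∀ x < X, idx x < N0) ∧
  (∀ u v : ℝ, u < v → (∀ x < X, ¬ (u < s x ∧ s x < v) ∧ ¬ (u < t x ∧ t x < v)) →
    ∀ Z : Finset κ, (∀ r ∈ Z, ∃ x < X, col x = r ∧ s x < v ∧ u < t x) → Z.card ≤ j) ∧
  W ≤ ∑ x ∈ range X, |f (t x) - f (s x)| / gam (idx x)

theorem step {κ : Type} [Fintype κ] [DecidableEq κ] (hg : ∀ i, 0 < gam i) (hgm : Monotone gam)
    {q : ℕ} (hq : 1 ≤ q) (hκ : Fintype.card κ = 2 * q) {w : ℝ}
    (hstage : ∀ (P : Finset ℝ) (N0 : ℕ), ∃ n s t, IsFam a b n s t ∧
      (∀ i < n, ∀ p ∈ P, ¬ (s i < p ∧ p < t i)) ∧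
      w ≤ ∑ i ∈ range n, |f (t i) - f (s i)| / gam (N0 + i / q))
    {j : ℕ} (hj : j < q) {W : ℝ} {X N0 : ℕ} {s t : ℕ → ℝ} {col : ℕ → κ} {idx : ℕ → ℕ}
    (h : State a b gam f κ j W X N0 s t col idx) :
    ∃ (X' N0' : ℕ) (s' t' : ℕ → ℝ) (col' : ℕ → κ) (idx' : ℕ → ℕ),
      State a b gam f κ (j + 1) (W + w) X' N0' s' t' col' idx' := by
  classical
  obtain ⟨h1, h2, h3, h4, h5⟩ := h
  obtain ⟨n, s', t', hF, hP, hW⟩ := hstage ((range X).image s ∪ (range X).image t) N0
  have hPs : ∀ i < n, ∀ x < X, ¬ (s' i < s x ∧ s x < t' i) ∧ ¬ (s' i < t x ∧ t x < t' i) := by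
    intro i hi x hx
    refine ⟨hP i hi (s x) ?_, hP i hi (t x) ?_⟩
    · exact mem_union_left _ (mem_image_of_mem _ (mem_range.2 hx))
    · exact mem_union_right _ (mem_image_of_mem _ (mem_range.2 hx))
  let S : ℕ → Finset κ := fun i => univ.filter fun r =>
    ¬ ∃ x < X, col x = r ∧ s x < t' i ∧ s' i < t x
  have hS : ∀ i < n, q ≤ (S i).card := by
    intro i hi
    have h6 := h4 (s' i) (t' i) (hF.1 i hi).2.1 (hPs i hi)
      (univ.filter fun r => ∃ x < X, col x = r ∧ s x < t' i ∧ s' i < t x)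
      (fun r hr => (mem_filter.1 hr).2)
    have h7 := card_filter_add_card_filter_not (s := (univ : Finset κ))
      (fun r => ∃ x < X, col x = r ∧ s x < t' i ∧ s' i < t x)
    rw [card_univ, hκ] at h7
    show q ≤ (univ.filter fun r => ¬ ∃ x < X, col x = r ∧ s x < t' i ∧ s' i < t x).card
    omega
  have hκ0 : Nonempty κ := by
    rw [← Fintype.card_pos_iff]; omega
  obtain ⟨nc, hnc⟩ := greedy hκ0.some q S n hS
    (fun i hi => by rw [← card_pos]; exact lt_of_lt_of_le (by omega) (hS i hi))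
  let rk : ℕ → ℕ := fun i => ((range i).filter fun k => nc k = nc i).card
  have hrk : ∀ i i', i < i' → nc i = nc i' → rk i < rk i' := by
    intro i i' hii hc
    apply card_lt_card
    rw [ssubset_iff_of_subset]
    · refine ⟨i, ?_, ?_⟩
      · simp [hii, hc]
      · simp
    · intro k hk
      rw [mem_filter, mem_range] at hk ⊢
      exact ⟨hk.1.trans hii, by rw [hk.2, hc]⟩
  have hrk2 : ∀ i < n, rk i ≤ i / q := by
    intro i hi
    rw [Nat.le_div_iff_mul_le (by omega), mul_comm]
    exact (hnc i hi).2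
  have hrk3 : ∀ i, rk i ≤ i := by
    intro i
    calc rk i ≤ (range i).card := card_filter_le _ _
      _ = i := card_range i
  refine ⟨X + n, N0 + n, fun x => if x < X then s x else s' (x - X),
    fun x => if x < X then t x else t' (x - X), fun x => if x < X then col x else nc (x - X),
    fun x => if x < X then idx x else N0 + rk (x - X), ?_, ?_, ?_, ?_, ?_⟩
  · intro x hx
    by_cases hxX : x < X
    · simp only [hxX, if_true]; exact h1 x hxX
    · simp only [hxX, if_false]; exact hF.1 (x - X) (by omega)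
  · intro x hx y hy hxy hc
    by_cases hxX : x < X <;> by_cases hyX : y < X
    · simp only [hxX, hyX, if_true] at hc ⊢
      exact h2 x hxX y hyX hxy hc
    · simp only [hxX, hyX, if_true, if_false] at hc ⊢
      have h6 := (hnc (y - X) (by omega)).1
      rw [mem_filter] at h6
      have h7 := h6.2
      push Not at h7
      refine ⟨?_, ?_⟩
      · by_cases h8 : s x < t' (y - X)
        · left; exact h7 x hxX hc h8
        · right; exact not_lt.1 h8
      · have := h3 x hxX
        omega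
    · simp only [hxX, hyX, if_true, if_false] at hc ⊢
      have h6 := (hnc (x - X) (by omega)).1
      rw [mem_filter] at h6
      have h7 := h6.2
      push Not at h7
      refine ⟨?_, ?_⟩
      · by_cases h8 : s y < t' (x - X)
        · right; exact h7 y hyX hc.symm h8
        · left; exact not_lt.1 h8
      · have := h3 y hyX
        omega
    · simp only [hxX, hyX, if_false] at hc ⊢
      refine ⟨hF.2 _ (by omega) _ (by omega) (by omega), ?_⟩
      rcases lt_or_gt_of_ne (show x - X ≠ y - X by omega) with h6 | h6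
      · have := hrk _ _ h6 hc; omega
      · have := hrk _ _ h6 hc.symm; omega
  · intro x hx
    by_cases hxX : x < X
    · simp only [hxX, if_true]; have := h3 x hxX; omega
    · simp only [hxX, if_false]; have := hrk3 (x - X); omega
  · intro u v huv hno Z hZ
    have hold := h4 u v huv (fun x hx => by
      have := hno x (by omega)
      simpa [hx] using this) (Z.filter fun r => ∃ x < X, col x = r ∧ s x < v ∧ u < t x)
      (fun r hr => (mem_filter.1 hr).2)
    have hnew : (Z.filter fun r => ¬ ∃ x < X, col x = r ∧ s x < v ∧ u < t x).card ≤ 1 := by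
      rw [card_le_one]
      have key : ∀ r ∈ Z.filter (fun r => ¬ ∃ x < X, col x = r ∧ s x < v ∧ u < t x),
          ∃ i < n, nc i = r ∧ s' i ≤ u ∧ v ≤ t' i := by
        intro r hr
        rw [mem_filter] at hr
        obtain ⟨x, hx, hc, h6, h7⟩ := hZ r hr.1
        by_cases hxX : x < X
        · exfalso
          apply hr.2
          simp only [hxX, if_true] at hc h6 h7
          exact ⟨x, hxX, hc, h6, h7⟩
        · simp only [hxX, if_false] at hc h6 h7
          have h8 := hno x hx
          simp only [hxX, if_false] at h8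
          refine ⟨x - X, by omega, hc, ?_, ?_⟩
          · by_contra h9
            exact h8.1 ⟨not_le.1 h9, h6⟩
          · by_contra h9
            exact h8.2 ⟨h7, not_le.1 h9⟩
      intro r hr r' hr'
      obtain ⟨i, hi, hc, h6, h7⟩ := key r hr
      obtain ⟨i', hi', hc', h6', h7'⟩ := key r' hr'
      by_cases hii : i = i'
      · rw [← hc, ← hc', hii]
      · exfalso
        rcases hF.2 i hi i' hi' hii with h8 | h8 <;> linarith
    have := card_filter_add_card_filter_not (s := Z) (fun r => ∃ x < X, col x = r ∧ s x < v ∧ u < t x)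
    omega
  · rw [sum_range_add]
    apply add_le_add
    · refine h5.trans (le_of_eq ?_)
      refine sum_congr rfl fun x hx => ?_
      rw [mem_range] at hx
      simp only [hx, if_true]
    · refine hW.trans ?_
      apply sum_le_sum
      intro i hi
      rw [mem_range] at hi
      have e1 : ¬ (X + i < X) := by omega
      have e2 : X + i - X = i := by omega
      simp only [e1, if_false, e2]
      apply div_le_div_of_nonneg_left (abs_nonneg _) (hg _)
      apply hgm
      have := hrk2 i hi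
      omega

theorem states {κ : Type} [Fintype κ] [DecidableEq κ] (hg : ∀ i, 0 < gam i) (hgm : Monotone gam)
    {q : ℕ} (hq : 1 ≤ q) (hκ : Fintype.card κ = 2 * q) {w : ℝ}
    (hstage : ∀ (P : Finset ℝ) (N0 : ℕ), ∃ n s t, IsFam a b n s t ∧
      (∀ i < n, ∀ p ∈ P, ¬ (s i < p ∧ p < t i)) ∧
      w ≤ ∑ i ∈ range n, |f (t i) - f (s i)| / gam (N0 + i / q)) :
    ∀ j ≤ q, ∃ (X N0 : ℕ) (s t : ℕ → ℝ) (col : ℕ → κ) (idx : ℕ → ℕ),
      State a b gam f κ j (j * w) X N0 s t col idx := by
  have hκ0 : Nonempty κ := by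
    rw [← Fintype.card_pos_iff]; omega
  intro j
  induction j with
  | zero =>
    intro _
    refine ⟨0, 0, fun _ => 0, fun _ => 0, fun _ => hκ0.some, fun _ => 0, by omega, by omega,
      by omega, ?_, by simp⟩
    intro u v _ _ Z hZ
    rw [Nat.le_zero, card_eq_zero]
    apply eq_empty_of_forall_notMem
    intro r hr
    obtain ⟨x, hx, _⟩ := hZ r hr
    omega
  | succ j ih =>
    intro hj
    obtain ⟨X, N0, s, t, col, idx, hs⟩ := ih (by omega)
    obtain ⟨X', N0', s', t', col', idx', hs'⟩ := step hg hgm hq hκ hstage (by omega) hs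
    refine ⟨X', N0', s', t', col', idx', ?_⟩
    have : ((j + 1 : ℕ) : ℝ) * w = j * w + w := by push_cast; ring
    rw [this]
    exact hs'

/-- the weight of one scale is at most `2 M` -/
theorem weight_le (hg : ∀ i, 0 < gam i) (hgm : Monotone gam) {M : ℝ} (hM : Bd a b gam f M)
    {q : ℕ} (hq : 1 ≤ q) {w : ℝ}
    (hstage : ∀ (P : Finset ℝ) (N0 : ℕ), ∃ n s t, IsFam a b n s t ∧
      (∀ i < n, ∀ p ∈ P, ¬ (s i < p ∧ p < t i)) ∧
      w ≤ ∑ i ∈ range n, |f (t i) - f (s i)| / gam (N0 + i / q)) : w ≤ 2 * M := by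
  obtain ⟨X, N0, s, t, col, idx, h1, h2, -, -, h5⟩ :=
    states (κ := Fin (2 * q)) hg hgm hq (by simp) hstage q le_rfl
  have h6 : ∑ x ∈ range X, |f (t x) - f (s x)| / gam (idx x) =
      ∑ r : Fin (2 * q), ∑ x ∈ (range X).filter (fun x => col x = r),
        |f (t x) - f (s x)| / gam (idx x) := by
    rw [sum_fiberwise]
  have h7 : ∑ r : Fin (2 * q), ∑ x ∈ (range X).filter (fun x => col x = r),
        |f (t x) - f (s x)| / gam (idx x) ≤ ∑ _r : Fin (2 * q), M := by
    apply sum_le_sum
    intro r _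
    apply hM.inj hg hgm 0
    · intro x hx
      rw [mem_filter, mem_range] at hx
      exact h1 x hx.1
    · intro x hx y hy hxy
      rw [mem_filter, mem_range] at hx hy
      exact h2 x hx.1 y hy.1 hxy (hx.2.trans hy.2.symm)
  rw [sum_const, card_univ, Fintype.card_fin, nsmul_eq_mul] at h7
  push_cast at h7
  have hqpos : (0 : ℝ) < q := by exact_mod_cast hq
  have h8 : (q : ℝ) * w ≤ q * (2 * M) := by linarith
  exact le_of_mul_le_mul_left h8 hqpos

/-- **Sufficiency.** -/
theorem suff (hab : a < b) (hg : ∀ i, 0 < gam i) (hgm : Monotone gam) (hl : ∀ i, 0 < lam i)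
    (hlm : Monotone lam) (hG : Tendsto (L gam) atTop atTop)
    (hc : ∀ ε : ℝ, 0 < ε → ∃ r : ℕ, 1 ≤ r ∧ ∃ N : ℕ, ∀ n ≥ N, L lam (r * n) ≤ ε * r * L gam n)
    {M : ℝ} (hM : Bd a b gam f M) {c : ℝ} (hcpos : 0 < c) :
    ∃ m, Bd a b (fun i => lam (m + i)) f c := by
  -- the weights tend to infinity
  have hlu : ∀ B : ℝ, ∃ m, B ≤ lam m := by
    intro B
    by_contra hcon
    push Not at hcon
    have hB : 0 < B := (hl 0).trans (hcon 0)
    obtain ⟨r, hr, N, hN⟩ := hc (gam 0 / (2 * B)) (by have := hg 0; positivity)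
    have h1 := hN (N + 1) (by omega)
    have hrpos : (0 : ℝ) < r := by exact_mod_cast hr
    have h2 : (r : ℝ) * (N + 1) * (1 / B) ≤ L lam (r * (N + 1)) := by
      calc (r : ℝ) * (N + 1) * (1 / B) = ∑ _i ∈ range (r * (N + 1)), 1 / B := by
            rw [sum_const, card_range, nsmul_eq_mul]; push_cast; ring
        _ ≤ _ := sum_le_sum fun i _ => one_div_le_one_div_of_le (hl i) (hcon i).le
    have h3 : L gam (N + 1) ≤ (N + 1) * (1 / gam 0) := by
      calc L gam (N + 1) ≤ ∑ _i ∈ range (N + 1), 1 / gam 0 :=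
            sum_le_sum fun i _ => one_div_le_one_div_of_le (hg 0) (hgm (Nat.zero_le i))
        _ = _ := by rw [sum_const, card_range, nsmul_eq_mul]; push_cast; ring
    have h4 : gam 0 / (2 * B) * r * L gam (N + 1) ≤
        gam 0 / (2 * B) * r * ((N + 1) * (1 / gam 0)) := by
      apply mul_le_mul_of_nonneg_left h3
      have := hg 0
      positivity
    have h5 : gam 0 / (2 * B) * r * ((N + 1) * (1 / gam 0)) = (r * (N + 1) * (1 / B)) / 2 := by
      have := (hg 0).ne'
      field_simp
    have h6 : 0 < (r : ℝ) * (N + 1) * (1 / B) := by positivity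
    linarith
  by_contra hcon
  push Not at hcon
  have hfam : ∀ m : ℕ, ∃ n s t, IsFam a b n s t ∧ c < vsum (fun i => lam (m + i)) f n s t := by
    intro m
    have := hcon m
    unfold Bd at this
    push Not at this
    exact this
  have hA : ∀ s t : ℝ, a ≤ s → s < t → t ≤ b → |f t - f s| ≤ M * gam 0 := by
    intro s t h1 h2 h3
    have h4 := hM 1 (fun _ => s) (fun _ => t) ⟨fun i _ => ⟨h1, h2, h3⟩, by omega⟩
    unfold vsum at h4
    rw [sum_range_one, div_le_iff₀ (hg 0)] at h4
    exact h4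
  have hM0 : 0 ≤ M := by
    have := hA a b le_rfl hab le_rfl
    have h1 := (abs_nonneg _).trans this
    by_contra h2
    have := mul_neg_of_neg_of_pos (not_le.1 h2) (hg 0)
    linarith
  have hε : 0 < c / (16 * (M + 1)) := by positivity
  obtain ⟨q, hq, N, hN⟩ := hc _ hε
  have h1 := weight_le hg hgm hM hq (w := c / (8 * (c / (16 * (M + 1))))) fun P N0 =>
    stage hg hgm hl hlm hG hlu hq hε hN hcpos hA hfam P
  have h2 : c / (8 * (c / (16 * (M + 1)))) = 2 * (M + 1) := by
    field_simp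
    norm_num
  rw [h2] at h1
  linarith

end Pool.Agent.Q178.GV
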