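import Pool.Agent.Q178.GV.B

open Filter Topology Finset
open scoped ENNReal

namespace Pool.Agent.Q178.GV

/-! ### A lacunary function -/

/-- the wave -/
noncomputable def wave (x : ℝ) : ℝ := Real.cos (Real.pi * x) / 2

theorem wave_le (x y : ℝ) : |wave x - wave y| ≤ 1 := by
  unfold wave
  rw [abs_le]
  constructor <;>
    linarith [Real.cos_le_one (Real.pi * x), Real.cos_le_one (Real.pi * y),
      Real.neg_one_le_cos (Real.pi * x), Real.neg_one_le_cos (Real.pi * y)]

theorem wave_lip (x y : ℝ) : |wave x - wave y| ≤ 2 * |x - y| := by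
  have h1 := Real.lipschitzWith_cos.dist_le_mul (Real.pi * x) (Real.pi * y)
  rw [Real.dist_eq, Real.dist_eq, NNReal.coe_one, one_mul, ← mul_sub, abs_mul,
    abs_of_pos Real.pi_pos] at h1
  unfold wave
  rw [← sub_div, abs_div, abs_of_pos (by norm_num : (0 : ℝ) < 2)]
  have h2 := Real.pi_le_four
  have h3 := abs_nonneg (x - y)
  have h4 : Real.pi * |x - y| ≤ 4 * |x - y| := mul_le_mul_of_nonneg_right h2 h3
  linarith

theorem wave_nat (i : ℕ) : |wave ((i : ℝ) + 1) - wave i| = 1 := by
  unfold wave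
  have h1 : Real.cos (Real.pi * (i : ℝ)) = (-1) ^ i := by
    rw [mul_comm]; exact Real.cos_nat_mul_pi i
  have h2 : Real.cos (Real.pi * ((i : ℝ) + 1)) = -(-1) ^ i := by
    rw [mul_add, mul_one, Real.cos_add_pi, h1]
  rw [h1, h2]
  have h3 : |(-1 : ℝ) ^ i| = 1 := by rw [abs_pow]; simp
  have h4 : -(-1 : ℝ) ^ i / 2 - (-1) ^ i / 2 = -(-1) ^ i := by ring
  rw [h4, abs_neg, h3]

/-- the data of the construction -/
structure Lac (nn : ℕ → ℕ) (del : ℕ → ℝ) : Prop where
  n_pos : ∀ k, 1 ≤ nn k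
  d_pos : ∀ k, 0 < del k
  d_le : ∀ k, 16 * del (k + 1) ≤ del k
  D_le : ∀ k, 16 * (nn k * del k) ≤ nn (k + 1) * del (k + 1)

variable {nn : ℕ → ℕ} {del : ℕ → ℝ}

theorem Lac.geom (h : Lac nn del) (k i : ℕ) : del (i + k) ≤ del k * (1 / 16) ^ i := by
  induction i with
  | zero => simp
  | succ i ih =>
    have h1 := h.d_le (i + k)
    rw [show i + 1 + k = i + k + 1 by ring, pow_succ]
    have h2 : del k * ((1 / 16) ^ i * (1 / 16)) = (del k * (1 / 16) ^ i) / 16 := by ring
    rw [h2]
    linarith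

theorem Lac.summable_tail (h : Lac nn del) (k : ℕ) : Summable fun i => del (i + k) := by
  refine Summable.of_nonneg_of_le (fun i => (h.d_pos _).le) (h.geom k) ?_
  exact (summable_geometric_of_lt_one (by norm_num) (by norm_num)).mul_left _

theorem Lac.tail_le (h : Lac nn del) (k : ℕ) : ∑' i, del (i + k) ≤ 16 / 15 * del k := by
  have h1 : ∑' i, del (i + k) ≤ ∑' i : ℕ, del k * (1 / 16) ^ i :=
    (h.summable_tail k).tsum_le_tsum (h.geom k)
      ((summable_geometric_of_lt_one (by norm_num) (by norm_num)).mul_left _)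
  rw [tsum_mul_left, tsum_geometric_of_lt_one (by norm_num) (by norm_num)] at h1
  have h2 := h.d_pos k
  norm_num at h1
  linarith

/-- sum of the slopes -/
noncomputable def E (nn : ℕ → ℕ) (del : ℕ → ℝ) (k : ℕ) : ℝ := ∑ j ∈ range k, nn j * del j

theorem Lac.D_nonneg (h : Lac nn del) (k : ℕ) : 0 ≤ nn k * del k :=
  mul_nonneg (Nat.cast_nonneg _) (h.d_pos k).le

theorem Lac.E_nonneg (h : Lac nn del) (k : ℕ) : 0 ≤ E nn del k :=
  sum_nonneg fun j _ => h.D_nonneg j

theorem Lac.E_le (h : Lac nn del) (k : ℕ) : 15 * E nn del k ≤ nn k * del k := by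
  induction k with
  | zero => simp only [E, range_zero, sum_empty, mul_zero]; exact h.D_nonneg 0
  | succ k ih =>
    have h1 : E nn del (k + 1) = E nn del k + nn k * del k := sum_range_succ _ _
    have h2 := h.D_le k
    rw [h1]
    linarith

theorem Lac.E_succ (h : Lac nn del) (k : ℕ) : E nn del (k + 1) ≤ 2 * (nn k * del k) := by
  have h1 : E nn del (k + 1) = E nn del k + nn k * del k := sum_range_succ _ _
  have h2 := h.E_le k
  have h3 := h.E_nonneg k
  rw [h1]
  linarith

/-- the lacunary series -/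
noncomputable def F (nn : ℕ → ℕ) (del : ℕ → ℝ) (x : ℝ) : ℝ := ∑' k, del k * wave (nn k * x)

/-- the differences -/
noncomputable def gd (nn : ℕ → ℕ) (del : ℕ → ℝ) (x y : ℝ) (k : ℕ) : ℝ :=
  del k * (wave (nn k * x) - wave (nn k * y))

theorem Lac.gd_le (h : Lac nn del) (x y : ℝ) (k : ℕ) : |gd nn del x y k| ≤ del k := by
  unfold gd
  rw [abs_mul, abs_of_pos (h.d_pos k)]
  have := mul_le_mul_of_nonneg_left (wave_le (nn k * x) (nn k * y)) (h.d_pos k).le
  linarith

theorem Lac.gd_lip (h : Lac nn del) (x y : ℝ) (k : ℕ) :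
    |gd nn del x y k| ≤ 2 * |x - y| * (nn k * del k) := by
  unfold gd
  rw [abs_mul, abs_of_pos (h.d_pos k)]
  have h1 := mul_le_mul_of_nonneg_left (wave_lip (nn k * x) (nn k * y)) (h.d_pos k).le
  have e : |(nn k : ℝ) * x - nn k * y| = nn k * |x - y| := by
    rw [← mul_sub, abs_mul, abs_of_nonneg (Nat.cast_nonneg (nn k))]
  rw [e] at h1
  linarith

theorem Lac.gd_summable (h : Lac nn del) (x y : ℝ) : Summable (gd nn del x y) := by
  refine Summable.of_norm_bounded (h.summable_tail 0) fun k => ?_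
  rw [Real.norm_eq_abs]
  exact h.gd_le x y k

theorem Lac.F_sub (h : Lac nn del) (x y : ℝ) :
    F nn del x - F nn del y = ∑' k, gd nn del x y k := by
  have hs : ∀ x : ℝ, Summable fun k => del k * wave (nn k * x) := by
    intro x
    refine Summable.of_norm_bounded (h.summable_tail 0) fun k => ?_
    rw [Real.norm_eq_abs, abs_mul, abs_of_pos (h.d_pos k)]
    have h1 : |wave (nn k * x)| ≤ 1 := by
      unfold wave
      rw [abs_le]
      constructor <;> linarith [Real.cos_le_one (Real.pi * (nn k * x)),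
        Real.neg_one_le_cos (Real.pi * (nn k * x))]
    have := mul_le_mul_of_nonneg_left h1 (h.d_pos k).le
    simpa using this
  unfold F gd
  rw [← (hs x).tsum_sub (hs y)]
  exact tsum_congr fun k => by ring

theorem Lac.tail_gd (h : Lac nn del) (x y : ℝ) (k : ℕ) :
    |∑' i, gd nn del x y (i + k)| ≤ 16 / 15 * del k := by
  refine le_trans ?_ (h.tail_le k)
  rw [← Real.norm_eq_abs]
  exact tsum_of_norm_bounded (h.summable_tail k).hasSum fun i => by
    rw [Real.norm_eq_abs]; exact h.gd_le x y _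

theorem Lac.head_gd (h : Lac nn del) (x y : ℝ) (k : ℕ) :
    |∑ i ∈ range k, gd nn del x y i| ≤ 2 * |x - y| * E nn del k := by
  calc |∑ i ∈ range k, gd nn del x y i| ≤ ∑ i ∈ range k, |gd nn del x y i| :=
        abs_sum_le_sum_abs _ _
    _ ≤ ∑ i ∈ range k, 2 * |x - y| * (nn i * del i) := sum_le_sum fun i _ => h.gd_lip x y i
    _ = 2 * |x - y| * E nn del k := by rw [E, mul_sum]

theorem Lac.upper (h : Lac nn del) (x y : ℝ) (k : ℕ) :
    |F nn del x - F nn del y| ≤ 2 * |x - y| * E nn del k + 2 * del k := by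
  rw [h.F_sub, ← (h.gd_summable x y).sum_add_tsum_nat_add k]
  have h1 := h.tail_gd x y k
  have h2 := h.head_gd x y k
  have h3 := abs_add_le (∑ i ∈ range k, gd nn del x y i) (∑' i, gd nn del x y (i + k))
  have h4 := h.d_pos k
  linarith

theorem Lac.lower (h : Lac nn del) (k i : ℕ) :
    del k / 2 ≤ |F nn del (((i : ℝ) + 1) / nn k) - F nn del (i / nn k)| := by
  set x : ℝ := ((i : ℝ) + 1) / nn k
  set y : ℝ := i / nn k
  have hn : (0 : ℝ) < nn k := by exact_mod_cast h.n_pos k
  rw [h.F_sub, ← (h.gd_summable x y).sum_add_tsum_nat_add (k + 1), sum_range_succ]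
  have h1 := h.tail_gd x y (k + 1)
  have h2 := h.head_gd x y k
  have h3 : |gd nn del x y k| = del k := by
    unfold gd
    have e1 : (nn k : ℝ) * x = (i : ℝ) + 1 := by simp only [x]; field_simp
    have e2 : (nn k : ℝ) * y = i := by simp only [y]; field_simp
    rw [e1, e2, abs_mul, wave_nat, abs_of_pos (h.d_pos k), mul_one]
  have h4 : |x - y| = 1 / nn k := by
    have : x - y = 1 / nn k := by simp only [x, y]; ring
    rw [this, abs_of_pos (by positivity)]
  rw [h4] at h2
  have h5 := h.E_le k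
  have h6 : 2 * (1 / (nn k : ℝ)) * E nn del k ≤ 2 / 15 * del k := by
    rw [show 2 * (1 / (nn k : ℝ)) * E nn del k = 2 * E nn del k / nn k by ring, div_le_iff₀ hn]
    linarith
  have h7 := h.d_le k
  have h8 := h.d_pos k
  set A := ∑ i ∈ range k, gd nn del x y i
  set B := ∑' i, gd nn del x y (i + (k + 1))
  have h9 : |gd nn del x y k| ≤ |A + gd nn del x y k + B| + |A| + |B| := by
    have e : gd nn del x y k = (A + gd nn del x y k + B) - A - B := by ring
    calc |gd nn del x y k| = |(A + gd nn del x y k + B) - A - B| := by rw [← e]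
      _ ≤ |(A + gd nn del x y k + B) - A| + |B| := abs_sub _ _
      _ ≤ |A + gd nn del x y k + B| + |A| + |B| := by gcongr; exact abs_sub _ _
  rw [h3] at h9
  linarith

end Pool.Agent.Q178.GV
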