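import Pool.Agent.Q178.GV.D

open Filter Topology Finset
open scoped ENNReal

namespace Pool.Agent.Q178.GV

variable {a b : ℝ} {gam lam : ℕ → ℝ} {f : ℝ → ℝ}

/-- total length of a family -/
theorem length_le {n : ℕ} {s t : ℕ → ℝ} (hab : a ≤ b) (h : IsFam a b n s t) :
    ∑ i ∈ range n, (t i - s i) ≤ b - a := by
  have hd : (range n : Set ℕ).PairwiseDisjoint fun i => Set.Ioo (s i) (t i) := by
    intro i hi j hj hij
    have hi' : i < n := by simpa using hi
    have hj' : j < n := by simpa using hj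
    rw [Function.onFun, Set.disjoint_left]
    intro x hx hx'
    rcases h.2 i hi' j hj' hij with h1 | h1
    · linarith [hx.2, hx'.1]
    · linarith [hx.1, hx'.2]
  have h1 : MeasureTheory.volume (⋃ i ∈ range n, Set.Ioo (s i) (t i)) =
      ∑ i ∈ range n, MeasureTheory.volume (Set.Ioo (s i) (t i)) :=
    MeasureTheory.measure_biUnion_finset hd fun _ _ => measurableSet_Ioo
  have h2 : MeasureTheory.volume (⋃ i ∈ range n, Set.Ioo (s i) (t i)) ≤
      MeasureTheory.volume (Set.Icc a b) := by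
    apply MeasureTheory.measure_mono
    intro x hx
    simp only [Set.mem_iUnion, mem_range] at hx
    obtain ⟨i, hi, hx1, hx2⟩ := hx
    obtain ⟨h3, h4, h5⟩ := h.1 i hi
    exact ⟨by linarith, by linarith⟩
  rw [h1, Real.volume_Icc] at h2
  simp only [Real.volume_Ioo] at h2
  rw [← ENNReal.ofReal_sum_of_nonneg] at h2
  · exact (ENNReal.ofReal_le_ofReal_iff (by linarith)).1 h2
  · intro i hi
    have := (h.1 i (mem_range.1 hi)).2.1
    linarith

/-- the estimate of one level -/
theorem level (hg : ∀ i, 0 < gam i) (hgm : Monotone gam) {u : ℕ} {R θ : ℝ} (hR : 0 ≤ R)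
    (hθ : 0 ≤ θ) (C : Finset ℕ) (v : ℕ → ℝ) (hv : ∀ i ∈ C, 0 ≤ v i ∧ v i ≤ 1)
    (hs : ∑ i ∈ C, v i ≤ R * u * θ) :
    ∑ i ∈ C, v i / gam i ≤ L gam u * (1 + R * θ) := by
  classical
  rw [← sum_filter_add_sum_filter_not C (fun i => i < u)]
  have h1 : ∑ i ∈ C.filter (fun i => i < u), v i / gam i ≤ L gam u := by
    calc ∑ i ∈ C.filter (fun i => i < u), v i / gam i
        ≤ ∑ i ∈ C.filter (fun i => i < u), 1 / gam i := by
          apply sum_le_sum
          intro i hi
          exact div_le_div_of_nonneg_right (hv i (mem_filter.1 hi).1).2 (hg i).le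
      _ ≤ ∑ i ∈ range u, 1 / gam i := by
          apply sum_le_sum_of_subset_of_nonneg
          · intro i hi
            exact mem_range.2 (mem_filter.1 hi).2
          · intro i _ _
            exact (one_div_pos.2 (hg i)).le
  have h2 : ∑ i ∈ C.filter (fun i => ¬ i < u), v i / gam i ≤ R * θ * L gam u := by
    calc ∑ i ∈ C.filter (fun i => ¬ i < u), v i / gam i
        ≤ ∑ i ∈ C.filter (fun i => ¬ i < u), v i / gam u := by
          apply sum_le_sum
          intro i hi
          have hi' := mem_filter.1 hi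
          exact div_le_div_of_nonneg_left (hv i hi'.1).1 (hg u) (hgm (not_lt.1 hi'.2))
      _ ≤ ∑ i ∈ C, v i / gam u := by
          apply sum_le_sum_of_subset_of_nonneg (filter_subset _ _)
          intro i hi _
          exact div_nonneg (hv i hi).1 (hg u).le
      _ = (∑ i ∈ C, v i) / gam u := by rw [sum_div]
      _ ≤ R * u * θ / gam u := div_le_div_of_nonneg_right hs (hg u).le
      _ = R * θ * (u * (1 / gam u)) := by ring
      _ ≤ R * θ * L gam u := by
          apply mul_le_mul_of_nonneg_left _ (mul_nonneg hR hθ)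
          calc (u : ℝ) * (1 / gam u) = ∑ _i ∈ range u, 1 / gam u := by
                rw [sum_const, card_range, nsmul_eq_mul]
            _ ≤ L gam u := sum_le_sum fun i hi =>
                one_div_le_one_div_of_le (hg i) (hgm (mem_range.1 hi).le)
  linarith

/-- the parameters of the construction -/
structure Par (gam lam : ℕ → ℝ) (ε : ℝ) (uu : ℕ → ℕ) : Prop where
  u_pos : ∀ k, 1 ≤ uu k
  bad : ∀ k, ε * 2 ^ k * L gam (uu k) < L lam (2 ^ k * uu k)
  one : ∀ k, 1 ≤ L lam (2 ^ k * uu k)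
  l_le : ∀ k, 16 * L lam (2 ^ k * uu k) ≤ L lam (2 ^ (k + 1) * uu (k + 1))
  D_le : ∀ k, 16 * (((2 ^ k * uu k : ℕ) : ℝ) / L lam (2 ^ k * uu k)) ≤
    ((2 ^ (k + 1) * uu (k + 1) : ℕ) : ℝ) / L lam (2 ^ (k + 1) * uu (k + 1))

theorem eventually_ratio (_hl : ∀ i, 0 < lam i) (hlm : Monotone lam)
    (hlu : ∀ B : ℝ, ∃ m, B ≤ lam m) (C : ℝ) (hC : 0 < C) :
    ∃ N : ℕ, ∀ n ≥ N, C * L lam n ≤ n := by
  obtain ⟨m, hm⟩ := hlu (2 * C)
  obtain ⟨N, hN⟩ := exists_nat_ge (2 * (C * L lam m))
  refine ⟨N + m, fun n hn => ?_⟩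
  have h1 : L lam n ≤ L lam m + n * (1 / (2 * C)) := by
    obtain ⟨j, rfl⟩ : ∃ j, n = m + j := ⟨n - m, by omega⟩
    unfold L
    rw [sum_range_add]
    have h2 : ∑ x ∈ range j, 1 / lam (m + x) ≤ ∑ _x ∈ range j, 1 / (2 * C) :=
      sum_le_sum fun x _ => one_div_le_one_div_of_le (by positivity) (hm.trans (hlm (by omega)))
    rw [sum_const, card_range, nsmul_eq_mul] at h2
    have h3 : (j : ℝ) * (1 / (2 * C)) ≤ ((m + j : ℕ) : ℝ) * (1 / (2 * C)) := by
      apply mul_le_mul_of_nonneg_right _ (by positivity)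
      push_cast
      linarith [(Nat.cast_nonneg m : (0 : ℝ) ≤ m)]
    linarith
  have h4 : (N : ℝ) ≤ n := by exact_mod_cast (by omega : N ≤ n)
  have h5 : C * (n * (1 / (2 * C))) = n / 2 := by field_simp
  have h6 := mul_le_mul_of_nonneg_left h1 hC.le
  rw [mul_add, h5] at h6
  linarith

theorem exists_par (hl : ∀ i, 0 < lam i) (hlm : Monotone lam)
    (hL : Tendsto (L lam) atTop atTop) (hlu : ∀ B : ℝ, ∃ m, B ≤ lam m) {ε : ℝ}
    (hf : ∀ r : ℕ, 1 ≤ r → ∀ N : ℕ, ∃ n ≥ N, ε * r * L gam n < L lam (r * n)) :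
    ∃ uu, Par gam lam ε uu := by
  have key : ∀ (k : ℕ) (y z : ℝ), ∃ n : ℕ, 1 ≤ n ∧ ε * 2 ^ k * L gam n < L lam (2 ^ k * n) ∧
      1 ≤ L lam (2 ^ k * n) ∧ y ≤ L lam (2 ^ k * n) ∧
      z ≤ ((2 ^ k * n : ℕ) : ℝ) / L lam (2 ^ k * n) := by
    intro k y z
    obtain ⟨N1, hN1⟩ := (hL.eventually (eventually_ge_atTop (max 1 y))).exists_forall_of_atTop
    obtain ⟨N2, hN2⟩ := eventually_ratio hl hlm hlu (max z 1) (by positivity)
    obtain ⟨n, hn, hb⟩ := hf (2 ^ k) Nat.one_le_two_pow (N1 + N2 + 1)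
    have h0 : n ≤ 2 ^ k * n := Nat.le_mul_of_pos_left n (by positivity)
    have h1 := hN1 (2 ^ k * n) (by omega)
    have h2 := hN2 (2 ^ k * n) (by omega)
    have h3 : 1 ≤ L lam (2 ^ k * n) := (le_max_left _ _).trans h1
    refine ⟨n, by omega, by push_cast at hb; exact hb, h3, (le_max_right _ _).trans h1, ?_⟩
    rw [le_div_iff₀ (by linarith)]
    refine le_trans ?_ h2
    exact mul_le_mul_of_nonneg_right (le_max_left _ _) (by linarith)
  choose nx h1 h2 h3 h4 h5 using key
  let uu : ℕ → ℕ := fun k => Nat.rec (nx 0 0 0) (fun k x => nx (k + 1) (16 * L lam (2 ^ k * x))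
    (16 * (((2 ^ k * x : ℕ) : ℝ) / L lam (2 ^ k * x)))) k
  have hsucc : ∀ k, uu (k + 1) = nx (k + 1) (16 * L lam (2 ^ k * uu k))
    (16 * (((2 ^ k * uu k : ℕ) : ℝ) / L lam (2 ^ k * uu k))) := fun k => rfl
  have h0 : uu 0 = nx 0 0 0 := rfl
  refine ⟨uu, ?_, ?_, ?_, ?_, ?_⟩
  · intro k
    cases k with
    | zero => rw [h0]; exact h1 _ _ _
    | succ k => rw [hsucc]; exact h1 _ _ _
  · intro k
    cases k with
    | zero => rw [h0]; exact h2 _ _ _
    | succ k => rw [hsucc]; exact h2 _ _ _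
  · intro k
    cases k with
    | zero => rw [h0]; exact h3 _ _ _
    | succ k => rw [hsucc]; exact h3 _ _ _
  · intro k
    rw [hsucc]; exact h4 _ _ _
  · intro k
    rw [hsucc]; exact h5 _ _ _

theorem Par.lac {ε : ℝ} {uu : ℕ → ℕ} (h : Par gam lam ε uu) :
    Lac (fun k => 2 ^ k * uu k) (fun k => 1 / L lam (2 ^ k * uu k)) where
  n_pos k := Nat.mul_pos (by positivity) (h.u_pos k)
  d_pos k := one_div_pos.2 (by linarith [h.one k])
  d_le k := by
    have h1 := h.one k
    have h2 := h.one (k + 1)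
    have h3 := h.l_le k
    rw [mul_one_div, div_le_div_iff₀ (by linarith) (by linarith)]
    linarith
  D_le k := by
    have h1 := h.D_le k
    rw [mul_one_div, mul_one_div]
    exact h1

theorem Par.level {ε : ℝ} (hε : 0 < ε) {uu : ℕ → ℕ} (h : Par gam lam ε uu) (hg : ∀ i, 0 < gam i)
    (hgm : Monotone gam) (k : ℕ) {θ : ℝ} (hθ : 0 ≤ θ) (C : Finset ℕ) (v : ℕ → ℝ)
    (hv : ∀ i ∈ C, 0 ≤ v i ∧ v i ≤ 1) (hs : ∑ i ∈ C, v i ≤ ((2 ^ k * uu k : ℕ) : ℝ) * θ) :
    1 / L lam (2 ^ k * uu k) * ∑ i ∈ C, v i / gam i ≤ ((1 / 2) ^ k + θ) / ε := by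
  have h1 := GV.level hg hgm (u := uu k) (R := 2 ^ k) (by positivity) hθ C v hv (by
    push_cast at hs; exact hs)
  have h2 := h.bad k
  have h3 := h.one k
  have h4 : 0 ≤ L gam (uu k) := L_nonneg hg _
  calc 1 / L lam (2 ^ k * uu k) * ∑ i ∈ C, v i / gam i
      ≤ 1 / L lam (2 ^ k * uu k) * (L gam (uu k) * (1 + 2 ^ k * θ)) := by
        apply mul_le_mul_of_nonneg_left h1
        exact one_div_nonneg.2 (by linarith)
    _ = (L gam (uu k) / L lam (2 ^ k * uu k)) * (1 + 2 ^ k * θ) := by ring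
    _ ≤ (1 / (ε * 2 ^ k)) * (1 + 2 ^ k * θ) := by
        apply mul_le_mul_of_nonneg_right _ (by positivity)
        rw [div_le_div_iff₀ (by linarith) (by positivity)]
        nlinarith
    _ = ((1 / 2) ^ k + θ) / ε := by
        rw [one_div_pow]
        field_simp

/-- the bound of the `Γ`-variation -/
theorem Par.upper {ε : ℝ} (hε : 0 < ε) {uu : ℕ → ℕ} (h : Par gam lam ε uu)
    (hg : ∀ i, 0 < gam i) (hgm : Monotone gam) (hab : a < b) :
    Bd a b gam (fun y => F (fun k => 2 ^ k * uu k) (fun k => 1 / L lam (2 ^ k * uu k))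
      ((y - a) / (b - a))) (26 / ε) := by
  classical
  intro n s t hF
  have hlac := h.lac
  set nn : ℕ → ℕ := fun k => 2 ^ k * uu k with hnn
  set del : ℕ → ℝ := fun k => 1 / L lam (2 ^ k * uu k) with hdel
  have hba : 0 < b - a := sub_pos.2 hab
  let ℓ : ℕ → ℝ := fun i => (t i - s i) / (b - a)
  have hℓpos : ∀ i < n, 0 < ℓ i := fun i hi => div_pos (by have := (hF.1 i hi).2.1; linarith) hba
  have hℓsum : ∑ i ∈ range n, ℓ i ≤ 1 := by
    simp only [ℓ]
    rw [← sum_div, div_le_one hba]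
    exact length_le hab.le hF
  have hex : ∀ i, i < n → ∃ k, 1 ≤ (nn k : ℝ) * ℓ i := by
    intro i hi
    obtain ⟨k, hk⟩ := exists_nat_ge (1 / ℓ i)
    refine ⟨k, ?_⟩
    rw [div_le_iff₀ (hℓpos i hi)] at hk
    refine hk.trans (mul_le_mul_of_nonneg_right ?_ (hℓpos i hi).le)
    have h1 : k ≤ nn k := by
      calc k ≤ 2 ^ k := Nat.lt_two_pow_self.le
        _ ≤ 2 ^ k * uu k := Nat.le_mul_of_pos_right _ (h.u_pos k)
    exact_mod_cast h1
  let ka : ℕ → ℕ := fun i => if hi : i < n then Nat.find (hex i hi) else 0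
  have hka1 : ∀ i < n, 1 ≤ (nn (ka i) : ℝ) * ℓ i := by
    intro i hi
    simp only [ka, hi, dif_pos]
    exact Nat.find_spec (hex i hi)
  have hka2 : ∀ i < n, ∀ k, ka i = k + 1 → (nn k : ℝ) * ℓ i < 1 := by
    intro i hi k hk
    simp only [ka, hi, dif_pos] at hk
    have := Nat.find_min (hex i hi) (m := k) (by omega)
    exact not_le.1 this
  obtain ⟨K, hK⟩ : ∃ K, ∀ i < n, ka i < K := by
    refine ⟨(range n).sup ka + 1, fun i hi => ?_⟩
    exact Nat.lt_succ_of_le (le_sup (f := ka) (mem_range.2 hi))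
  have hbound : ∀ i < n, |F nn del ((t i - a) / (b - a)) - F nn del ((s i - a) / (b - a))| ≤
      2 * ℓ i * E nn del (ka i) + 2 * del (ka i) := by
    intro i hi
    have h1 := hlac.upper ((t i - a) / (b - a)) ((s i - a) / (b - a)) (ka i)
    have h2 : |(t i - a) / (b - a) - (s i - a) / (b - a)| = ℓ i := by
      have : (t i - a) / (b - a) - (s i - a) / (b - a) = ℓ i := by simp only [ℓ]; ring
      rw [this, abs_of_pos (hℓpos i hi)]
    rw [h2] at h1
    exact h1
  unfold vsum
  have hstep1 : ∑ i ∈ range n, |F nn del ((t i - a) / (b - a)) - F nn del ((s i - a) / (b - a))| /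
      gam i ≤ ∑ i ∈ range n, (2 * ℓ i * E nn del (ka i) + 2 * del (ka i)) / gam i :=
    sum_le_sum fun i hi => div_le_div_of_nonneg_right (hbound i (mem_range.1 hi)) (hg i).le
  refine hstep1.trans ?_
  have hfib : ∑ i ∈ range n, (2 * ℓ i * E nn del (ka i) + 2 * del (ka i)) / gam i =
      ∑ k ∈ range K, ∑ i ∈ (range n).filter (fun i => ka i = k),
        (2 * ℓ i * E nn del (ka i) + 2 * del (ka i)) / gam i := by
    rw [sum_fiberwise_of_maps_to]
    intro i hi
    exact mem_range.2 (hK i (mem_range.1 hi))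
  rw [hfib]
  let θ : ℕ → ℝ := fun k => ∑ i ∈ (range n).filter (fun i => ka i = k), ℓ i
  have hθ0 : ∀ k, 0 ≤ θ k := fun k => sum_nonneg fun i hi =>
    (hℓpos i (mem_range.1 (mem_filter.1 hi).1)).le
  have hθsum : ∑ k ∈ range K, θ k ≤ 1 := by
    have : ∑ k ∈ range K, θ k = ∑ i ∈ range n, ℓ i := by
      simp only [θ]
      rw [sum_fiberwise_of_maps_to]
      intro i hi
      exact mem_range.2 (hK i (mem_range.1 hi))
    rw [this]
    exact hℓsum
  have hclass : ∀ k ∈ range K, ∑ i ∈ (range n).filter (fun i => ka i = k),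
        (2 * ℓ i * E nn del (ka i) + 2 * del (ka i)) / gam i ≤
      (10 * (1 / 2) ^ k + 6 * θ k) / ε := by
    intro k _
    set C := (range n).filter (fun i => ka i = k) with hC
    have hCn : ∀ i ∈ C, i < n := fun i hi => mem_range.1 (mem_filter.1 hi).1
    have hCk : ∀ i ∈ C, ka i = k := fun i hi => (mem_filter.1 hi).2
    have e1 : ∑ i ∈ C, (2 * ℓ i * E nn del (ka i) + 2 * del (ka i)) / gam i =
        2 * E nn del k * ∑ i ∈ C, ℓ i / gam i + 2 * (del k * ∑ i ∈ C, 1 / gam i) := by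
      rw [mul_sum, mul_sum, mul_sum, ← sum_add_distrib]
      refine sum_congr rfl fun i hi => ?_
      rw [hCk i hi]
      ring
    rw [e1]
    have hA : del k * ∑ i ∈ C, 1 / gam i ≤ ((1 / 2) ^ k + θ k) / ε := by
      apply h.level hε hg hgm k (hθ0 k) C (fun _ => 1) (fun i _ => ⟨by norm_num, le_rfl⟩)
      simp only [θ, mul_sum]
      apply sum_le_sum
      intro i hi
      have := hka1 i (hCn i hi)
      rw [hCk i hi] at this
      exact this
    have hB : 2 * E nn del k * ∑ i ∈ C, ℓ i / gam i ≤ (8 * (1 / 2) ^ k + 4 * θ k) / ε := by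
      cases k with
      | zero =>
        have : E nn del 0 = 0 := by simp [E]
        rw [this]
        have h1 := hθ0 0
        have : 0 ≤ (8 * (1 / 2 : ℝ) ^ 0 + 4 * θ 0) / ε := by positivity
        simpa using this
      | succ k =>
        have h1 := hlac.E_succ k
        have h2 : del k * ∑ i ∈ C, (nn k * ℓ i) / gam i ≤ ((1 / 2) ^ k + θ (k + 1)) / ε := by
          apply h.level hε hg hgm k (hθ0 (k + 1)) C (fun i => nn k * ℓ i)
          · intro i hi
            exact ⟨mul_nonneg (Nat.cast_nonneg _) (hℓpos i (hCn i hi)).le,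
              (hka2 i (hCn i hi) k (hCk i hi)).le⟩
          · simp only [θ, mul_sum]
            exact le_rfl
        have h3 : 0 ≤ ∑ i ∈ C, ℓ i / gam i :=
          sum_nonneg fun i hi => div_nonneg (hℓpos i (hCn i hi)).le (hg i).le
        calc 2 * E nn del (k + 1) * ∑ i ∈ C, ℓ i / gam i
            ≤ 2 * (2 * (nn k * del k)) * ∑ i ∈ C, ℓ i / gam i := by
              apply mul_le_mul_of_nonneg_right _ h3
              linarith
          _ = 4 * (del k * ∑ i ∈ C, (nn k * ℓ i) / gam i) := by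
              have : ∑ i ∈ C, (nn k * ℓ i) / gam i = nn k * ∑ i ∈ C, ℓ i / gam i := by
                rw [mul_sum]
                exact sum_congr rfl fun i _ => by ring
              rw [this]
              ring
          _ ≤ 4 * (((1 / 2) ^ k + θ (k + 1)) / ε) := by linarith
          _ = (8 * (1 / 2) ^ (k + 1) + 4 * θ (k + 1)) / ε := by
              rw [pow_succ]
              ring
    calc 2 * E nn del k * ∑ i ∈ C, ℓ i / gam i + 2 * (del k * ∑ i ∈ C, 1 / gam i)
        ≤ (8 * (1 / 2) ^ k + 4 * θ k) / ε + 2 * (((1 / 2) ^ k + θ k) / ε) := by linarith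
      _ = (10 * (1 / 2) ^ k + 6 * θ k) / ε := by ring
  refine (sum_le_sum hclass).trans ?_
  rw [← sum_div, sum_add_distrib, ← mul_sum, ← mul_sum]
  apply div_le_div_of_nonneg_right _ hε.le
  have hgeo : ∑ k ∈ range K, (1 / 2 : ℝ) ^ k ≤ 2 := by
    have h1 := (summable_geometric_of_lt_one (by norm_num : (0 : ℝ) ≤ 1 / 2)
      (by norm_num)).sum_le_tsum (range K) (fun i _ => by positivity)
    rw [tsum_geometric_of_lt_one (by norm_num) (by norm_num)] at h1
    norm_num at h1 ⊢
    exact h1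
  linarith

/-- the `Λ`-variation does not tend to zero -/
theorem Par.lower {ε : ℝ} {uu : ℕ → ℕ} (h : Par gam lam ε uu) (hl : ∀ i, 0 < lam i)
    (hab : a < b) (m : ℕ) :
    ∃ n s t, IsFam a b n s t ∧ 1 / 4 ≤ vsum (fun i => lam (m + i))
      (fun y => F (fun k => 2 ^ k * uu k) (fun k => 1 / L lam (2 ^ k * uu k))
        ((y - a) / (b - a))) n s t := by
  have hlac := h.lac
  have hba : 0 < b - a := sub_pos.2 hab
  have hgrow : ∀ k : ℕ, (k : ℝ) ≤ L lam (2 ^ k * uu k) := by
    intro k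
    induction k with
    | zero => have := h.one 0; rw [Nat.cast_zero]; linarith
    | succ k ih =>
      have h1 := h.l_le k
      have h2 := h.one k
      push_cast
      linarith
  obtain ⟨k, hk⟩ := exists_nat_ge (2 * L lam m)
  have hk2 : 2 * L lam m ≤ L lam (2 ^ k * uu k) := hk.trans (hgrow k)
  set nn : ℕ → ℕ := fun k => 2 ^ k * uu k with hnn
  set del : ℕ → ℝ := fun k => 1 / L lam (2 ^ k * uu k) with hdel
  have hnpos : (0 : ℝ) < nn k := by exact_mod_cast hlac.n_pos k
  refine ⟨nn k, fun i => a + (b - a) * (i / nn k), fun i => a + (b - a) * ((i + 1) / nn k),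
    ⟨?_, ?_⟩, ?_⟩
  · intro i hi
    refine ⟨?_, ?_, ?_⟩
    · have : 0 ≤ (b - a) * ((i : ℝ) / nn k) := by positivity
      linarith
    · have : (b - a) * ((i : ℝ) / nn k) < (b - a) * ((i + 1) / nn k) := by
        apply mul_lt_mul_of_pos_left _ hba
        apply div_lt_div_of_pos_right _ hnpos
        linarith
      linarith
    · have h1 : ((i : ℝ) + 1) / nn k ≤ 1 := by
        rw [div_le_one hnpos]
        exact_mod_cast hi
      have := mul_le_mul_of_nonneg_left h1 hba.le
      linarith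
  · intro i _ j _ hij
    have key : ∀ i j : ℕ, i < j → a + (b - a) * (((i : ℝ) + 1) / nn k) ≤
        a + (b - a) * (j / nn k) := by
      intro i j hij
      have h1 : ((i : ℝ) + 1) / nn k ≤ j / nn k := by
        apply div_le_div_of_nonneg_right _ hnpos.le
        exact_mod_cast hij
      have := mul_le_mul_of_nonneg_left h1 hba.le
      linarith
    rcases lt_or_gt_of_ne hij with h1 | h1
    · left; exact key i j h1
    · right; exact key j i h1
  · unfold vsum
    have h1 : ∀ i ∈ range (nn k), del k / 2 * (1 / lam (m + i)) ≤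
        |F nn del ((a + (b - a) * (((i : ℝ) + 1) / nn k) - a) / (b - a)) -
          F nn del ((a + (b - a) * ((i : ℝ) / nn k) - a) / (b - a))| / lam (m + i) := by
      intro i _
      have e1 : (a + (b - a) * (((i : ℝ) + 1) / nn k) - a) / (b - a) = ((i : ℝ) + 1) / nn k := by
        field_simp
        ring
      have e2 : (a + (b - a) * ((i : ℝ) / nn k) - a) / (b - a) = (i : ℝ) / nn k := by
        field_simp
        ring
      rw [e1, e2, mul_one_div]
      exact div_le_div_of_nonneg_right (hlac.lower k i) (hl _).le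
    refine le_trans ?_ (sum_le_sum h1)
    rw [← mul_sum]
    have h2 : L lam (nn k) ≤ L lam m + ∑ i ∈ range (nn k), 1 / lam (m + i) := by
      have h3 : L lam (m + nn k) = L lam m + ∑ i ∈ range (nn k), 1 / lam (m + i) := by
        unfold L
        rw [sum_range_add]
      rw [← h3]
      exact L_mono hl (by omega)
    have h4 : 1 ≤ L lam (nn k) := h.one k
    have h5 : del k = 1 / L lam (nn k) := rfl
    have h6 : L lam (nn k) / 2 ≤ ∑ i ∈ range (nn k), 1 / lam (m + i) := by
      have : 2 * L lam m ≤ L lam (nn k) := hk2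
      linarith
    have h7 := mul_le_mul_of_nonneg_left h6 (by have := hlac.d_pos k; positivity : 0 ≤ del k / 2)
    refine le_trans (le_of_eq ?_) h7
    rw [h5]
    field_simp
    norm_num

end Pool.Agent.Q178.GV
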